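import Pool.Agent.N902.HI.Count
import Pool.Agent.N733.TG.K
import Pool.Agent.N375.AV.D

/-!
# The Ramanujan bound for cusp forms of weight `3/2` near the values of multiplicative and additive functions

Let `p` be a prime, `χ` a Dirichlet character modulo `24 p`, and `f = ∑ a(n) e(nz)` a cusp form of weight `3/2` and character
`χ` on `Γ_0(24 p)`, in Shimura's normalisation (for instance one in the subspace `S^(1)` of the problem). Let `0 < η ≤ 1/2`,
`d ≥ 1` and `κ ≥ 0` with `d (1 - 2 η) + κ < 1`. We show: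

* let `F` be a positive multiplicative function of at most polynomial growth such that `F p ≤ M p` for the large primes `p`,
  with different values at different large primes, for example Euler's function or the sum of the divisors. For all `m ≤ N` but
  `N / (log N)^U` ALL the `r` with `|r - α F(m)^d| ≤ F(m)^κ` satisfy `|a(r)| ≤ r^(1/4 + η)`, the bound of the problem;
* the same holds for the compositions of `k` functions dominated by the largest prime factor (additive functions like the sum of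
  the prime factors, the largest prime factor, Kempner's function), but for `K N exp (- c (log N)^(1 / (k + 1)))` numbers `m`.

More generally `G (F m)` takes the place of `α F(m)^d`, where `G` is any function with steps bounded below by a positive constant
and growth at most `v^d`. For `d = 1` any `η > 0` and `κ < 2 η` is allowed.

Proof. The fourth power of `f` is a cusp form of weight `6` on `Γ_1(24 p)`, and so `|f(z)| ≤ C y^(-3/4)`; Bessel's inequality
gives `∑_{n ≤ X} |a(n)|^2 = O(X^(3/2))`, and `O(X^(1 - 2 η))` of the `n ≤ X` violate the bound (all this is classical). The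
engines N733/TG and N375/AV transfer this to the values `F(m)`, which may be taken with very large multiplicities.
-/

set_option autoImplicit false

namespace Pool.Agent.N902.HI.ArithmeticValues

open UpperHalfPlane CongruenceSubgroup Filter Topology
open Pool.Agent.N733.TG (LM Expanding lm_totient lm_sigma keep_good_nat expanding_pow)
open Pool.Agent.N375.AV (PD comp good_nat pd_additive pd_largest pd_kempner)
open scoped MatrixGroups Manifold

/-- `ε_d = 1` if `d ≡ 1 mod 4` and `i` otherwise (`d` odd) -/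
noncomputable def eps (d : ℤ) : ℂ := if d % 4 = 1 then 1 else Complex.I

/-- Shimura's quadratic residue symbol `(c/d)` for odd `d` -/
def sym (c d : ℤ) : ℤ := if c < 0 ∧ d < 0 then -jacobiSym c d.natAbs else jacobiSym c d.natAbs

/-- the theta multiplier `j(γ, z) = ε_d⁻¹ (c/d) (c z + d)^(1/2)`, which is `θ(γ z) / θ(z)` on `Γ_0(4)`, `θ(z) = ∑ e(n² z)` -/
noncomputable def jTheta (c d : ℤ) (z : ℂ) : ℂ := (eps d)⁻¹ * (sym c d : ℂ) * (c * z + d) ^ (1 / 2 : ℂ)

/-- cusp forms of weight `3/2`, level `N` (divisible by `4`) and character `χ`: holomorphic on the upper half plane,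
`f(γ z) = χ(d) j(γ, z)^3 f(z)` for `γ` in `Γ_0(N)`, and zero at all cusps -/
structure IsCuspForm (N : ℕ) (χ : DirichletCharacter ℂ N) (f : ℍ → ℂ) : Prop where
  holo : MDiff f
  slash : ∀ γ ∈ Gamma0 N, ∀ z : ℍ, f (γ • z) = χ ((γ 1 1 : ℤ) : ZMod N) * jTheta (γ 1 0) (γ 1 1) z ^ 3 * f z
  cusps : ∀ γ : SL(2, ℤ), Tendsto (fun z : ℍ => ‖f (γ • z)‖ * ‖((γ 1 0 : ℤ) : ℂ) * z + ((γ 1 1 : ℤ) : ℂ)‖ ^ (-(3 / 2) : ℝ))
    atImInfty (𝓝 0)

/-- `a n`, `n ≥ 1`, are the Fourier coefficients of `f`: `f(z) = ∑_{n ≥ 1} a(n) e(n z)` -/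
def HasCoeffs (f : ℍ → ℂ) (a : ℕ → ℂ) : Prop :=
  ∀ z : ℍ, HasSum (fun n : ℕ => a (n + 1) * Complex.exp (2 * Real.pi * Complex.I * ((n + 1 : ℕ) : ℂ) * z)) (f z)

/-- **The Ramanujan bound for weight `3/2` near the values of arithmetic functions.** Let `p` be a prime, `f` a cusp form of
weight `3/2`, level `24 p` and character `χ` with the Fourier coefficients `a(n)`. Let `0 < η ≤ 1/2`, let `G` have steps
`≥ b > 0` and growth at most `v^d`, and `κ ≥ 0`, `d (1 - 2 η) + κ < 1`.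

* Let `F` be multiplicative and positive, of at most polynomial growth, with `F q ≤ M q` at the large primes, and injective there.
  For every `U` and all large `N`, for all `m ≤ N` but `N / (log N)^U`, EVERY `r ≥ 1` with `|r - G (F m)| ≤ F(m)^κ` satisfies
  `|a(r)| ≤ r^(1/4 + η)`.
* Let `F = f_1 ∘ ⋯ ∘ f_k`, `f_i` dominated by the largest prime factor. For all `m ≤ N` but `K N exp (- c (log N)^(1 / (k + 1)))`
  EVERY `r ≥ 1` with `|r - G (F m)| ≤ F(m)^κ` satisfies `|a(r)| ≤ r^(1/4 + η)`.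
* Euler's function and the sum of the divisors are examples of the first kind; the additive functions `g` with `g (q^j) ≤ C q^j`
  which are injective at the large primes, the largest prime factor and Kempner's function are examples of the second kind, and
  `α v^d` with `α > 0`, `d ≥ 1` is an example of `G`. -/
theorem result :
    (∀ (p : ℕ), p.Prime → ∀ (χ : DirichletCharacter ℂ (24 * p)) (f : ℍ → ℂ), IsCuspForm (24 * p) χ f →
      ∀ a : ℕ → ℂ, HasCoeffs f a → ∀ η : ℝ, 0 < η → η ≤ 1 / 2 →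
      ∀ (G : ℕ → ℝ) (d : ℝ), Expanding G d → ∀ κ : ℝ, 0 ≤ κ → d * (1 - 2 * η) + κ < 1 →
        (∀ F : ℕ → ℕ, LM F → ∀ U : ℕ, ∃ N₀ : ℕ, ∀ N : ℕ, N₀ ≤ N →
          ({m : ℕ | 1 ≤ m ∧ m ≤ N ∧ ¬ ∀ r : ℕ, 1 ≤ r → |(r : ℝ) - G (F m)| ≤ (F m : ℝ) ^ κ →
            ‖a r‖ ≤ (r : ℝ) ^ (1 / 4 + η)}.ncard : ℝ) ≤ N / Real.log N ^ U) ∧
        ∀ fs : List (ℕ → ℕ), (∀ g ∈ fs, PD g) → ∃ c K : ℝ, 0 < c ∧ ∀ N : ℕ, 1 ≤ N →
          ({m : ℕ | 1 ≤ m ∧ m ≤ N ∧ ¬ ∀ r : ℕ, 1 ≤ r → |(r : ℝ) - G (comp fs m)| ≤ (comp fs m : ℝ) ^ κ →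
            ‖a r‖ ≤ (r : ℝ) ^ (1 / 4 + η)}.ncard : ℝ) ≤
            K * N * Real.exp (-(c * Real.log N ^ ((1 : ℝ) / (fs.length + 1))))) ∧
    (LM Nat.totient ∧ LM (fun m => ∑ d ∈ m.divisors, d)) ∧
    (∀ f : ℕ → ℕ, (∀ a b : ℕ, Nat.Coprime a b → f (a * b) = f a + f b) →
      (∃ C : ℕ, ∀ q j : ℕ, q.Prime → 1 ≤ j → f (q ^ j) ≤ C * q ^ j) →
      (∃ P : ℕ, ∀ p q : ℕ, p.Prime → q.Prime → P ≤ p → P ≤ q → f p = f q → p = q) → PD f) ∧
    (PD (fun n => n.primeFactors.sup id) ∧ PD (fun n => sInf {k : ℕ | n ∣ k.factorial})) ∧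
    ∀ α d : ℝ, 0 < α → 1 ≤ d → Expanding (fun v => α * (v : ℝ) ^ d) d := by
  refine ⟨fun p hp χ f hf a ha η hη hη2 G d hG κ hκ h1 => ?_, ⟨lm_totient, lm_sigma⟩,
    fun f h2 h3 h4 => pd_additive h2 h3 h4, ⟨pd_largest, pd_kempner⟩, fun α d hα hd => expanding_pow hα hd⟩
  have : NeZero (24 * p) := ⟨Nat.mul_ne_zero (by norm_num) hp.ne_zero⟩
  have hf' : Pool.Agent.N902.HI.IsCuspForm (24 * p) χ f := ⟨hf.holo, hf.slash, hf.cusps⟩
  have ha' : Pool.Agent.N902.HI.HasCoeffs f a := ha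
  have key := fun ε hε => Pool.Agent.N902.HI.few_large_cusp hf' ha' hη hη2 (fun _ => True) ε hε
  have hs : (0 : ℝ) ≤ 1 - 2 * η := by linarith
  refine ⟨fun F hF U => ?_, fun fs hfs => ?_⟩
  · obtain ⟨N₀, hN₀⟩ := keep_good_nat (fun _ => True) (fun r => ‖a r‖ ≤ (r : ℝ) ^ (1 / 4 + η)) hF hG hs hκ h1 key U
    refine ⟨N₀, fun N hN => le_trans (le_of_eq ?_) (hN₀ N hN)⟩
    congr 2
    ext m
    simp only [Set.mem_ofPred_eq, forall_const]
  · obtain ⟨c, K, hc, hcK⟩ := good_nat (fun _ => True) (fun r => ‖a r‖ ≤ (r : ℝ) ^ (1 / 4 + η)) fs hfs hG hs hκ h1 key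
    refine ⟨c, K, hc, fun N hN => le_trans (le_of_eq ?_) (hcK N hN)⟩
    congr 2
    ext m
    simp only [Set.mem_ofPred_eq, forall_const]

end Pool.Agent.N902.HI.ArithmeticValues
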