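import Pool.Agent.N902.HI.Mean

/-! The number of `n ≤ X` with `|a(n)| > n^(1/4 + η)`, in the form used by the engines. -/

set_option autoImplicit false

open UpperHalfPlane Finset

namespace Pool.Agent.N902.HI

/-- **few coefficients of a cusp form of weight `3/2` are larger than `n^(1/4 + η)`** -/
theorem few_large_cusp {N : ℕ} [NeZero N] {χ : DirichletCharacter ℂ N} {f : ℍ → ℂ} (hf : IsCuspForm N χ f)
    {a : ℕ → ℂ} (ha : HasCoeffs f a) {η : ℝ} (hη : 0 < η) (hη2 : η ≤ 1 / 2) (Adm : ℕ → Prop) (ε : ℝ) (hε : 0 < ε) :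
    ∃ K : ℝ, ∀ X : ℕ, 1 ≤ X →
      ({t : ℕ | 1 ≤ t ∧ t ≤ X ∧ Adm t ∧ ¬ ‖a t‖ ≤ (t : ℝ) ^ (1 / 4 + η)}.ncard : ℝ) ≤
        K * (X : ℝ) ^ ((1 - 2 * η) + ε) := by
  obtain ⟨C, hC0, hC⟩ := sup_bound hf
  have hms := fun X hX => mean_sq ha (C := C) (κ := 3 / 4) (fun z => by
    have := hC z
    rw [show -(3 / 4 : ℝ) = -(3 / 4) by ring] at this
    exact this) X hX
  obtain ⟨K, hK⟩ := few_large (a := a) (D := C ^ 2 * Real.exp (4 * Real.pi)) (κ := 3 / 4) (η := η) (by positivity)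
    (by linarith) hms (σ := (1 - 2 * η) + ε) (by linarith) (by linarith)
  refine ⟨K, fun X hX => le_trans ?_ (hK X hX)⟩
  rw [← Set.ncard_coe_finset]
  have hsub : {t : ℕ | 1 ≤ t ∧ t ≤ X ∧ Adm t ∧ ¬ ‖a t‖ ≤ (t : ℝ) ^ (1 / 4 + η)} ⊆
      (((Icc 1 X).filter (fun n : ℕ => (n : ℝ) ^ ((3 / 4 : ℝ) - 1 / 2 + η) < ‖a n‖) : Finset ℕ) : Set ℕ) := by
    rintro t ⟨h1, h2, -, h3⟩
    rw [coe_filter]
    refine ⟨mem_Icc.2 ⟨h1, h2⟩, ?_⟩
    push Not at h3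
    rw [show (3 / 4 : ℝ) - 1 / 2 + η = 1 / 4 + η by ring]
    exact h3
  exact_mod_cast Set.ncard_le_ncard hsub (Finset.finite_toSet _)

end Pool.Agent.N902.HI
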