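import Mathlib

/-! Cusp forms of weight `3/2` in Shimura's normalisation: the bound `|f(z)| ≤ C / y^(3/4)`. -/

set_option autoImplicit false

open UpperHalfPlane ModularForm CongruenceSubgroup Filter Topology Matrix.SpecialLinearGroup
open scoped MatrixGroups Manifold

namespace Pool.Agent.N902.HI

/-- `ε_d = 1` if `d ≡ 1 mod 4` and `i` otherwise (`d` odd) -/
noncomputable def eps (d : ℤ) : ℂ := if d % 4 = 1 then 1 else Complex.I

/-- Shimura's quadratic residue symbol `(c/d)` for odd `d` -/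
def sym (c d : ℤ) : ℤ := if c < 0 ∧ d < 0 then -jacobiSym c d.natAbs else jacobiSym c d.natAbs

/-- the theta multiplier `j(γ, z) = ε_d⁻¹ (c/d) (c z + d)^(1/2)` -/
noncomputable def jTheta (c d : ℤ) (z : ℂ) : ℂ := (eps d)⁻¹ * (sym c d : ℂ) * (c * z + d) ^ (1 / 2 : ℂ)

/-- cusp forms of weight `3/2`, level `N` and character `χ` -/
structure IsCuspForm (N : ℕ) (χ : DirichletCharacter ℂ N) (f : ℍ → ℂ) : Prop where
  holo : MDiff f
  slash : ∀ γ ∈ Gamma0 N, ∀ z : ℍ, f (γ • z) = χ ((γ 1 1 : ℤ) : ZMod N) * jTheta (γ 1 0) (γ 1 1) z ^ 3 * f z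
  cusps : ∀ γ : SL(2, ℤ), Tendsto (fun z : ℍ => ‖f (γ • z)‖ * ‖((γ 1 0 : ℤ) : ℂ) * z + ((γ 1 1 : ℤ) : ℂ)‖ ^ (-(3 / 2) : ℝ))
    atImInfty (𝓝 0)

lemma eps_pow (d : ℤ) : eps d ^ 4 = 1 := by
  unfold eps
  split_ifs
  · simp
  · rw [Complex.I_pow_four]

lemma sym_sq {c d : ℤ} (h : IsCoprime c d) : (sym c d) ^ 2 = 1 := by
  have h1 : Int.gcd c (d.natAbs : ℤ) = 1 := by
    have h3 := Int.isCoprime_iff_gcd_eq_one.1 h
    rw [Int.gcd_eq_natAbs_gcd_natAbs] at h3 ⊢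
    rw [Int.natAbs_natCast]
    exact h3
  have h2 : jacobiSym c d.natAbs ^ 2 = 1 := jacobiSym.sq_one h1
  unfold sym
  split_ifs
  · rw [neg_sq, h2]
  · exact h2

lemma jTheta_pow {c d : ℤ} (h : IsCoprime c d) (z : ℂ) :
    (jTheta c d z ^ 3) ^ 4 = (c * z + d) ^ 6 := by
  have e1 : (eps d)⁻¹ ^ 12 = 1 := by
    rw [inv_pow, show (12 : ℕ) = 4 * 3 by norm_num, pow_mul, eps_pow, one_pow, inv_one]
  have e2 : ((sym c d : ℤ) : ℂ) ^ 12 = 1 := by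
    have := sym_sq h
    have h3 : ((sym c d : ℤ) : ℂ) ^ 2 = 1 := by exact_mod_cast this
    rw [show (12 : ℕ) = 2 * 6 by norm_num, pow_mul, h3, one_pow]
  have e3 : (((c : ℂ) * z + d) ^ (1 / 2 : ℂ)) ^ 12 = (c * z + d) ^ 6 := by
    rw [← Complex.cpow_nat_mul]
    rw [show ((12 : ℕ) : ℂ) * (1 / 2) = ((6 : ℕ) : ℂ) by norm_num, Complex.cpow_natCast]
  unfold jTheta
  rw [← pow_mul, show 3 * 4 = 12 by norm_num, mul_pow, mul_pow, e1, e2, e3]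
  ring

lemma denom_eq (γ : SL(2, ℤ)) (z : ℍ) : denom γ z = ((γ 1 0 : ℤ) : ℂ) * z + ((γ 1 1 : ℤ) : ℂ) := by
  simp [denom]

/-- the fourth power of a cusp form of weight `3/2` is a cusp form of weight `6` -/
noncomputable def pow4 {N : ℕ} [NeZero N] {χ : DirichletCharacter ℂ N} {f : ℍ → ℂ} (hf : IsCuspForm N χ f) :
    CuspForm ((Gamma1 N).map (mapGL ℝ)) 6 where
  toFun z := f z ^ 4
  slash_action_eq' := by
    intro g hg
    obtain ⟨γ, hγ, rfl⟩ := hg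
    have hγ1 : γ ∈ Gamma1 N := hγ
    have hγ0 : γ ∈ Gamma0 N := Gamma1_in_Gamma0 N hγ1
    have hd : ((γ 1 1 : ℤ) : ZMod N) = 1 := ((Gamma1_mem N γ).1 hγ1).2.1
    have hcop : IsCoprime (γ 1 0) (γ 1 1) := by
      have := γ.2
      rw [Matrix.det_fin_two] at this
      refine ⟨-(γ 0 1), γ 0 0, ?_⟩
      linarith
    ext z
    change ((fun z => f z ^ 4) ∣[(6 : ℤ)] γ) z = f z ^ 4
    rw [SL_slash_apply, hf.slash γ hγ0 z, hd, map_one, one_mul, mul_pow, denom_eq,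
      jTheta_pow hcop z]
    have hne : ((γ 1 0 : ℤ) : ℂ) * z + ((γ 1 1 : ℤ) : ℂ) ≠ 0 := by rw [← denom_eq]; exact denom_ne_zero _ _
    have h6 : (((γ 1 0 : ℤ) : ℂ) * z + ((γ 1 1 : ℤ) : ℂ)) ^ (-(6 : ℤ)) =
        ((((γ 1 0 : ℤ) : ℂ) * z + ((γ 1 1 : ℤ) : ℂ)) ^ 6)⁻¹ := by
      rw [zpow_neg]
      rfl
    rw [h6]
    field_simp
  holo' := by
    have := hf.holo
    change MDiff (fun z => f z ^ 4)
    exact this.pow 4
  zero_at_cusps' := by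
    intro c hc
    have hc' : IsCusp c 𝒮ℒ := (Subgroup.IsArithmetic.isCusp_iff_isCusp_SL2Z _).1 hc
    rw [OnePoint.isZeroAt_iff_forall_SL2Z hc']
    intro γ _
    have h1 := hf.cusps γ
    have h2 := h1.pow 4
    rw [zero_pow (by norm_num)] at h2
    unfold IsZeroAtImInfty ZeroAtFilter
    rw [tendsto_zero_iff_norm_tendsto_zero]
    refine h2.congr fun z => ?_
    rw [SL_slash_apply, norm_mul, norm_pow, norm_zpow, denom_eq, mul_pow, ← Real.rpow_natCast (_ ^ _),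
      ← Real.rpow_mul (norm_nonneg _), ← Real.rpow_intCast]
    norm_num

/-- **the sup norm bound** -/
theorem sup_bound {N : ℕ} [NeZero N] {χ : DirichletCharacter ℂ N} {f : ℍ → ℂ} (hf : IsCuspForm N χ f) :
    ∃ C : ℝ, 0 ≤ C ∧ ∀ z : ℍ, ‖f z‖ ≤ C * z.im ^ (-(3 / 4) : ℝ) := by
  obtain ⟨C, hC⟩ := CuspFormClass.exists_bound (pow4 hf)
  refine ⟨|C| ^ (1 / 4 : ℝ), by positivity, fun z => ?_⟩
  have h1 : ‖f z ^ 4‖ ≤ C / z.im ^ ((6 : ℤ) / 2 : ℝ) := hC z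
  have hy := z.im_pos
  have h2 : ‖f z‖ ^ 4 ≤ |C| * z.im ^ (-3 : ℝ) := by
    rw [norm_pow] at h1
    refine h1.trans ?_
    rw [Real.rpow_neg hy.le, ← div_eq_mul_inv]
    have : ((6 : ℤ) : ℝ) / 2 = 3 := by norm_num
    rw [this]
    gcongr
    exact le_abs_self C
  have h3 : ‖f z‖ = (‖f z‖ ^ 4) ^ (1 / 4 : ℝ) := by
    rw [← Real.rpow_natCast, ← Real.rpow_mul (norm_nonneg _)]
    norm_num
  rw [h3]
  calc (‖f z‖ ^ 4) ^ (1 / 4 : ℝ) ≤ (|C| * z.im ^ (-3 : ℝ)) ^ (1 / 4 : ℝ) := by gcongr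
    _ = |C| ^ (1 / 4 : ℝ) * z.im ^ (-(3 / 4) : ℝ) := by
      rw [Real.mul_rpow (abs_nonneg C) (by positivity), ← Real.rpow_mul hy.le]
      norm_num

end Pool.Agent.N902.HI
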