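import Pool.Agent.N902.HI.Cusp

/-! The mean square of the Fourier coefficients and the number of large coefficients. -/

set_option autoImplicit false

open UpperHalfPlane Filter Topology Finset MeasureTheory

namespace Pool.Agent.N902.HI

/-- `a n`, `n ≥ 1`, are the Fourier coefficients of `f` -/
def HasCoeffs (f : ℍ → ℂ) (a : ℕ → ℂ) : Prop :=
  ∀ z : ℍ, HasSum (fun n : ℕ => a (n + 1) * Complex.exp (2 * Real.pi * Complex.I * ((n + 1 : ℕ) : ℂ) * z)) (f z)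

local instance : Fact ((0 : ℝ) < 1) := ⟨one_pos⟩

/-- Bessel's inequality -/
theorem bessel (b : ℕ → ℂ) (hb : Summable fun n => ‖b n‖) (B : ℝ)
    (hB : ∀ x : ℝ, ‖∑' n : ℕ, b n * Complex.exp (2 * Real.pi * Complex.I * ((n + 1 : ℕ) : ℂ) * x)‖ ≤ B)
    (S : Finset ℕ) : ∑ n ∈ S, ‖b n‖ ^ 2 ≤ B ^ 2 := by
  have hB0 : 0 ≤ B := (norm_nonneg _).trans (hB 0)
  have hsum : Summable (fun n : ℕ => b n • (fourier ((n : ℤ) + 1) : C(AddCircle (1 : ℝ), ℂ))) := by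
    apply Summable.of_norm
    refine hb.congr fun n => ?_
    rw [norm_smul, fourier_norm, mul_one]
  set g : C(AddCircle (1 : ℝ), ℂ) := ∑' n : ℕ, b n • (fourier ((n : ℤ) + 1) : C(AddCircle (1 : ℝ), ℂ)) with hg
  have hgn : ‖g‖ ≤ B := by
    rw [ContinuousMap.norm_le _ hB0]
    intro x
    induction x using QuotientAddGroup.induction_on with
    | H x =>
      have h1 : g (x : AddCircle (1 : ℝ)) = ∑' n : ℕ, b n * Complex.exp (2 * Real.pi * Complex.I * ((n + 1 : ℕ) : ℂ) * x) := by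
        have h0 := ContinuousMap.tsum_apply hsum (x : AddCircle (1 : ℝ))
        rw [hg]
        refine h0.symm.trans (tsum_congr fun n => ?_)
        rw [ContinuousMap.smul_apply, fourier_coe_apply, smul_eq_mul]
        congr 2
        push_cast
        ring
      change ‖g (x : AddCircle (1 : ℝ))‖ ≤ B
      rw [h1]
      exact hB x
  set x2 := ContinuousMap.toLp (E := ℂ) 2 AddCircle.haarAddCircle ℂ g with hx2
  have hx2n : ‖x2‖ ≤ B := by
    have h1 : ‖x2‖ ≤ ‖(ContinuousMap.toLp (E := ℂ) 2 (AddCircle.haarAddCircle (T := (1 : ℝ))) ℂ :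
        C(AddCircle (1 : ℝ), ℂ) →L[ℂ] Lp ℂ 2 (AddCircle.haarAddCircle (T := (1 : ℝ))))‖ * ‖g‖ :=
      ContinuousLinearMap.le_opNorm _ g
    have h2 := ContinuousMap.toLp_norm_le (p := 2) (μ := (AddCircle.haarAddCircle (T := (1 : ℝ)))) (E := ℂ) (𝕜 := ℂ)
    have h3 : ((measureUnivNNReal (AddCircle.haarAddCircle (T := (1 : ℝ))) : ℝ)) ^ ((2 : ENNReal).toReal)⁻¹ = 1 := by
      simp [measureUnivNNReal]
    rw [h3] at h2
    calc ‖x2‖ ≤ _ := h1
      _ ≤ 1 * ‖g‖ := by gcongr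
      _ ≤ B := by rw [one_mul]; exact hgn
  have horth : Orthonormal ℂ (fun n : ℕ => fourierLp (T := (1 : ℝ)) 2 ((n : ℤ) + 1)) :=
    orthonormal_fourier.comp (fun n : ℕ => (n : ℤ) + 1) (fun m n h => by
      have : (m : ℤ) + 1 = n + 1 := h
      omega)
  have hs2 : HasSum (fun n : ℕ => b n • fourierLp (T := (1 : ℝ)) 2 ((n : ℤ) + 1)) x2 := by
    have h1 := hsum.hasSum.mapL (ContinuousMap.toLp (E := ℂ) 2 (AddCircle.haarAddCircle (T := (1 : ℝ))) ℂ)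
    refine h1.congr_fun fun n => ?_
    rw [map_smul]
  have hin : ∀ m : ℕ, inner ℂ (fourierLp (T := (1 : ℝ)) 2 ((m : ℤ) + 1)) x2 = b m := by
    intro m
    have h1 := hs2.mapL (innerSL ℂ (fourierLp (T := (1 : ℝ)) 2 ((m : ℤ) + 1)))
    have h2 : HasSum (fun n : ℕ => innerSL ℂ (fourierLp (T := (1 : ℝ)) 2 ((m : ℤ) + 1))
        (b n • fourierLp (T := (1 : ℝ)) 2 ((n : ℤ) + 1))) (b m) := by
      have h3 := hasSum_ite_eq m (b m)
      refine h3.congr_fun fun n => ?_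
      rw [innerSL_apply_apply, inner_smul_right]
      have h4 := orthonormal_iff_ite.1 horth m n
      rw [h4]
      by_cases h5 : m = n
      · subst h5
        simp
      · rw [if_neg h5, if_neg (Ne.symm h5), mul_zero]
    exact h1.unique h2
  have h5 := horth.sum_inner_products_le (x := x2) (s := S)
  calc ∑ n ∈ S, ‖b n‖ ^ 2 = ∑ n ∈ S, ‖inner ℂ (fourierLp (T := (1 : ℝ)) 2 ((n : ℤ) + 1)) x2‖ ^ 2 :=
        sum_congr rfl fun n _ => by rw [hin]
    _ ≤ ‖x2‖ ^ 2 := h5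
    _ ≤ B ^ 2 := by gcongr

/-- the mean square of the coefficients -/
theorem mean_sq {f : ℍ → ℂ} {a : ℕ → ℂ} (ha : HasCoeffs f a) {C κ : ℝ}
    (hC : ∀ z : ℍ, ‖f z‖ ≤ C * z.im ^ (-κ)) (X : ℕ) (hX : 1 ≤ X) :
    ∑ n ∈ Icc 1 X, ‖a n‖ ^ 2 ≤ (C ^ 2 * Real.exp (4 * Real.pi)) * (X : ℝ) ^ (2 * κ) := by
  have hX0 : (0 : ℝ) < X := by exact_mod_cast hX
  set y : ℝ := 1 / X with hy
  have hy0 : 0 < y := by positivity
  set b : ℕ → ℂ := fun n => a (n + 1) * Real.exp (-(2 * Real.pi * (n + 1) * y)) with hb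
  have hterm : ∀ (x : ℝ) (n : ℕ), a (n + 1) * Complex.exp (2 * Real.pi * Complex.I * ((n + 1 : ℕ) : ℂ) *
      ((⟨⟨x, y⟩, hy0⟩ : ℍ) : ℂ)) = b n * Complex.exp (2 * Real.pi * Complex.I * ((n + 1 : ℕ) : ℂ) * x) := by
    intro x n
    have e1 : ((⟨⟨x, y⟩, hy0⟩ : ℍ) : ℂ) = (x : ℂ) + (y : ℂ) * Complex.I := by
      apply Complex.ext <;> simp
    rw [hb, e1, mul_assoc (a (n + 1)), Complex.ofReal_exp, ← Complex.exp_add]
    congr 2
    push_cast
    ring_nf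
    rw [Complex.I_sq]
    ring
  have hsummable : Summable fun n => ‖b n‖ := by
    have h1 := (ha ⟨⟨0, y⟩, hy0⟩).summable.norm
    refine h1.congr fun n => ?_
    rw [hterm 0 n]
    simp
  have hbd : ∀ x : ℝ, ‖∑' n : ℕ, b n * Complex.exp (2 * Real.pi * Complex.I * ((n + 1 : ℕ) : ℂ) * x)‖ ≤ C * y ^ (-κ) := by
    intro x
    have h1 := (ha ⟨⟨x, y⟩, hy0⟩).tsum_eq
    have h2 := hC ⟨⟨x, y⟩, hy0⟩
    rw [← h1] at h2
    refine le_trans (le_of_eq ?_) h2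
    congr 1
    exact tsum_congr fun n => (hterm x n).symm
  have h3 := bessel b hsummable _ hbd (range X)
  have h4 : ∀ n ∈ range X, ‖a (n + 1)‖ ^ 2 ≤ Real.exp (4 * Real.pi) * ‖b n‖ ^ 2 := by
    intro n hn
    rw [mem_range] at hn
    have hn1 : ((n : ℝ) + 1) * y ≤ 1 := by
      rw [hy, mul_one_div, div_le_one hX0]
      exact_mod_cast hn
    have e1 : ‖b n‖ = ‖a (n + 1)‖ * Real.exp (-(2 * Real.pi * (n + 1) * y)) := by
      rw [hb]
      simp only [norm_mul, Complex.norm_real, Real.norm_eq_abs, Real.abs_exp]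
    rw [e1, mul_pow, ← Real.exp_nat_mul]
    have e2 : 1 ≤ Real.exp (4 * Real.pi) * Real.exp ((2 : ℕ) * -(2 * Real.pi * (n + 1) * y)) := by
      rw [← Real.exp_add]
      apply Real.one_le_exp
      push_cast
      nlinarith [Real.pi_pos]
    calc ‖a (n + 1)‖ ^ 2 = ‖a (n + 1)‖ ^ 2 * 1 := by ring
      _ ≤ ‖a (n + 1)‖ ^ 2 * (Real.exp (4 * Real.pi) * Real.exp ((2 : ℕ) * -(2 * Real.pi * (n + 1) * y))) := by gcongr
      _ = _ := by ring
  have h5 : ∑ n ∈ Icc 1 X, ‖a n‖ ^ 2 = ∑ n ∈ range X, ‖a (n + 1)‖ ^ 2 := by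
    rw [range_eq_Ico, sum_Ico_add' (fun n => ‖a n‖ ^ 2) 0 X 1]
    rfl
  rw [h5]
  calc ∑ n ∈ range X, ‖a (n + 1)‖ ^ 2 ≤ ∑ n ∈ range X, Real.exp (4 * Real.pi) * ‖b n‖ ^ 2 := sum_le_sum h4
    _ = Real.exp (4 * Real.pi) * ∑ n ∈ range X, ‖b n‖ ^ 2 := by rw [mul_sum]
    _ ≤ Real.exp (4 * Real.pi) * (C * y ^ (-κ)) ^ 2 := by gcongr
    _ = (C ^ 2 * Real.exp (4 * Real.pi)) * (X : ℝ) ^ (2 * κ) := by
      rw [mul_pow, ← Real.rpow_natCast (y ^ (-κ)), ← Real.rpow_mul hy0.le, hy, one_div,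
        Real.inv_rpow hX0.le, ← Real.rpow_neg hX0.le]
      push_cast
      rw [show -(-κ * 2) = 2 * κ by ring]
      ring

/-- few coefficients are large -/
theorem few_large {a : ℕ → ℂ} {D κ η : ℝ} (hD : 0 ≤ D) (hη : 0 ≤ κ - 1 / 2 + η)
    (hms : ∀ X : ℕ, 1 ≤ X → ∑ n ∈ Icc 1 X, ‖a n‖ ^ 2 ≤ D * (X : ℝ) ^ (2 * κ)) {σ : ℝ} (hσ : 0 < σ)
    (hσ2 : 1 - 2 * η ≤ σ) :
    ∃ K : ℝ, ∀ X : ℕ, 1 ≤ X →
      (((Icc 1 X).filter (fun n : ℕ => (n : ℝ) ^ (κ - 1 / 2 + η) < ‖a n‖)).card : ℝ) ≤ K * (X : ℝ) ^ σ := by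
  have h2σ : (2 : ℝ) ^ (-σ) < 1 := Real.rpow_lt_one_of_one_lt_of_neg one_lt_two (by linarith)
  set D1 := D * 2 ^ (2 * (κ - 1 / 2 + η)) * 2 ^ (2 * (κ - 1 / 2 + η)) with hD1
  have hD10 : 0 ≤ D1 := by positivity
  set K := max 1 (D1 / (1 - 2 ^ (-σ))) with hK
  refine ⟨K, fun X => ?_⟩
  induction X using Nat.strong_induction_on with
  | _ X ih =>
    intro hX
    rcases Nat.lt_or_ge X 2 with h | h
    · obtain rfl : X = 1 := by omega
      rw [Nat.cast_one, Real.one_rpow, mul_one]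
      have h1 : (((Icc 1 1).filter (fun n : ℕ => (n : ℝ) ^ (κ - 1 / 2 + η) < ‖a n‖)).card : ℝ) ≤ 1 := by
        exact_mod_cast (card_filter_le _ _).trans (by simp)
      exact h1.trans (le_max_left _ _)
    · have hX0 : (0 : ℝ) < X := by exact_mod_cast (by omega : 0 < X)
      have h1 := ih (X / 2) (by omega) (by omega)
      have hsplit : ((Icc 1 X).filter (fun n : ℕ => (n : ℝ) ^ (κ - 1 / 2 + η) < ‖a n‖)).card ≤
          ((Icc 1 (X / 2)).filter (fun n : ℕ => (n : ℝ) ^ (κ - 1 / 2 + η) < ‖a n‖)).card +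
          ((Ioc (X / 2) X).filter (fun n : ℕ => (n : ℝ) ^ (κ - 1 / 2 + η) < ‖a n‖)).card := by
        rw [← card_union_of_disjoint]
        · apply card_le_card
          intro n hn
          rw [mem_filter, mem_Icc] at hn
          rw [mem_union, mem_filter, mem_filter, mem_Icc, mem_Ioc]
          rcases Nat.lt_or_ge (X / 2) n with h3 | h3
          · exact Or.inr ⟨⟨h3, hn.1.2⟩, hn.2⟩
          · exact Or.inl ⟨⟨hn.1.1, h3⟩, hn.2⟩
        · rw [disjoint_left]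
          intro n hn hn2
          rw [mem_filter, mem_Icc] at hn
          rw [mem_filter, mem_Ioc] at hn2
          omega
      have hdy : (((Ioc (X / 2) X).filter (fun n : ℕ => (n : ℝ) ^ (κ - 1 / 2 + η) < ‖a n‖)).card : ℝ) ≤ D1 * (X : ℝ) ^ σ := by
        have hc : ∀ n ∈ (Ioc (X / 2) X).filter (fun n : ℕ => (n : ℝ) ^ (κ - 1 / 2 + η) < ‖a n‖),
            ((X : ℝ) / 2) ^ (2 * (κ - 1 / 2 + η)) ≤ ‖a n‖ ^ 2 := by
          intro n hn
          rw [mem_filter, mem_Ioc] at hn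
          have h3 : (X : ℝ) / 2 ≤ n := by
            have : X ≤ 2 * n := by omega
            have : (X : ℝ) ≤ 2 * n := by exact_mod_cast this
            linarith
          calc ((X : ℝ) / 2) ^ (2 * (κ - 1 / 2 + η)) = (((X : ℝ) / 2) ^ (κ - 1 / 2 + η)) ^ 2 := by
                rw [← Real.rpow_natCast, ← Real.rpow_mul (by positivity)]
                congr 1
                push_cast
                ring
            _ ≤ ((n : ℝ) ^ (κ - 1 / 2 + η)) ^ 2 := by gcongr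
            _ ≤ ‖a n‖ ^ 2 := by
              have := hn.2.le
              gcongr
        have h4 := card_nsmul_le_sum _ _ _ hc
        rw [nsmul_eq_mul] at h4
        have h5 : ∑ n ∈ (Ioc (X / 2) X).filter (fun n : ℕ => (n : ℝ) ^ (κ - 1 / 2 + η) < ‖a n‖), ‖a n‖ ^ 2 ≤
            ∑ n ∈ Icc 1 X, ‖a n‖ ^ 2 := by
          apply sum_le_sum_of_subset_of_nonneg
          · intro n hn
            rw [mem_filter, mem_Ioc] at hn
            rw [mem_Icc]
            omega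
          · intros
            positivity
        have h6 := (h4.trans h5).trans (hms X hX)
        have h7 : (0 : ℝ) < ((X : ℝ) / 2) ^ (2 * (κ - 1 / 2 + η)) := by positivity
        rw [← le_div_iff₀ h7] at h6
        refine h6.trans ?_
        rw [Real.div_rpow hX0.le (by norm_num), div_div_eq_mul_div, div_le_iff₀ (by positivity)]
        have e1 : (X : ℝ) ^ (2 * κ) ≤ (X : ℝ) ^ σ * (X : ℝ) ^ (2 * (κ - 1 / 2 + η)) := by
          rw [← Real.rpow_add hX0]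
          apply Real.rpow_le_rpow_of_exponent_le (by exact_mod_cast hX)
          linarith
        have e2 : (1 : ℝ) ≤ 2 ^ (2 * (κ - 1 / 2 + η)) := Real.one_le_rpow (by norm_num) (by linarith)
        calc D * (X : ℝ) ^ (2 * κ) * 2 ^ (2 * (κ - 1 / 2 + η))
            ≤ D * ((X : ℝ) ^ σ * (X : ℝ) ^ (2 * (κ - 1 / 2 + η))) * 2 ^ (2 * (κ - 1 / 2 + η)) := by gcongr
          _ = (D * 2 ^ (2 * (κ - 1 / 2 + η)) * 1) * (X : ℝ) ^ σ * (X : ℝ) ^ (2 * (κ - 1 / 2 + η)) := by ring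
          _ ≤ D1 * (X : ℝ) ^ σ * (X : ℝ) ^ (2 * (κ - 1 / 2 + η)) := by
            rw [hD1]
            gcongr
      have h8 : (((X / 2 : ℕ) : ℝ)) ^ σ ≤ 2 ^ (-σ) * (X : ℝ) ^ σ := by
        have : ((X / 2 : ℕ) : ℝ) ≤ X / 2 := Nat.cast_div_le
        calc (((X / 2 : ℕ) : ℝ)) ^ σ ≤ ((X : ℝ) / 2) ^ σ := by gcongr
          _ = 2 ^ (-σ) * (X : ℝ) ^ σ := by
            rw [Real.div_rpow hX0.le (by norm_num), Real.rpow_neg (by norm_num)]
            field_simp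
      have h9 : D1 ≤ K * (1 - 2 ^ (-σ)) := by
        rw [← div_le_iff₀ (by linarith)]
        exact le_max_right _ _
      have hK0 : 0 ≤ K := le_trans zero_le_one (le_max_left _ _)
      have hXσ : 0 ≤ (X : ℝ) ^ σ := by positivity
      calc (((Icc 1 X).filter (fun n : ℕ => (n : ℝ) ^ (κ - 1 / 2 + η) < ‖a n‖)).card : ℝ)
          ≤ (((Icc 1 (X / 2)).filter (fun n : ℕ => (n : ℝ) ^ (κ - 1 / 2 + η) < ‖a n‖)).card : ℝ) +
            (((Ioc (X / 2) X).filter (fun n : ℕ => (n : ℝ) ^ (κ - 1 / 2 + η) < ‖a n‖)).card : ℝ) := by exact_mod_cast hsplit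
        _ ≤ K * (((X / 2 : ℕ) : ℝ)) ^ σ + D1 * (X : ℝ) ^ σ := add_le_add h1 hdy
        _ ≤ K * (2 ^ (-σ) * (X : ℝ) ^ σ) + (K * (1 - 2 ^ (-σ))) * (X : ℝ) ^ σ := by gcongr
        _ = K * (X : ℝ) ^ σ := by ring

end Pool.Agent.N902.HI
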